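import Pool.Agent.D0H2.BF.ConeCore
import Pool.Agent.D0H95.BF.Stm5

/-!
# Project BF (helper95), module CONE (helper2)
-/

set_option autoImplicit false

namespace Pool.Agent.D0H2.BF

open Pool.Agent.D0H95.BF

theorem t_CONE : S_CONE := by
  rintro M ⟨φ, l, h1, h2, i₀, hi₀, hi₀φ⟩
  exact cone_core M φ l h1 h2 i₀ hi₀ hi₀φ

end Pool.Agent.D0H2.BF
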