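import Mathlib

/-!
# Project BF (helper95), module CONE (helper2): a perturbed linear sequence grows
-/

set_option autoImplicit false

namespace Pool.Agent.D0H2.BF

open Finset

theorem cone_core {E ι : Type} [NormedAddCommGroup E] [NormedSpace ℝ E] [FiniteDimensional ℝ E]
    [Fintype ι] (M : E →L[ℝ] E) (φ : ι → (E →L[ℝ] ℂ)) (l : ι → ℂ)
    (hφ : ∀ i v, φ i (M v) = l i * φ i v) (hinj : ∀ v, (∀ i, φ i v = 0) → v = 0)
    (i₀ : ι) (hi₀ : 1 < ‖l i₀‖) (hi₀φ : φ i₀ ≠ 0) :
    ∃ v0 : E, v0 ≠ 0 ∧ ∃ ε : ℝ, 0 < ε ∧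
      ∀ w : ℕ → E, (∃ s : ℝ, s ≠ 0 ∧ w 0 = s • v0) →
        (∀ n, ‖w (n + 1) - M (w n)‖ ≤ ε * ‖w n‖) → ∀ C : ℝ, ∃ n, C < ‖w n‖ := by
  classical
  set U : Finset ι := univ.filter fun i => 1 < ‖l i‖ with hU
  have hi₀U : i₀ ∈ U := mem_filter.mpr ⟨mem_univ _, hi₀⟩
  obtain ⟨i₁, hi₁U, hmin⟩ := exists_min_image U (fun i => ‖l i‖) ⟨i₀, hi₀U⟩
  set g₀ : ℝ := ‖l i₁‖ with hg₀
  have hg₀1 : 1 < g₀ := (mem_filter.mp hi₁U).2
  set Su : E → ℝ := fun v => ∑ i ∈ U, ‖φ i v‖ with hSu
  set Ss : E → ℝ := fun v => ∑ i ∈ Uᶜ, ‖φ i v‖ with hSs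
  have hSu0 : ∀ v, 0 ≤ Su v := fun v => sum_nonneg fun i _ => norm_nonneg _
  have hSs0 : ∀ v, 0 ≤ Ss v := fun v => sum_nonneg fun i _ => norm_nonneg _
  have hSuM : ∀ v, g₀ * Su v ≤ Su (M v) := by
    intro v
    simp only [hSu]
    rw [mul_sum]
    refine sum_le_sum fun i hi => ?_
    rw [hφ, norm_mul]
    exact mul_le_mul_of_nonneg_right (hmin i hi) (norm_nonneg _)
  have hSsM : ∀ v, Ss (M v) ≤ Ss v := by
    intro v
    simp only [hSs]
    refine sum_le_sum fun i hi => ?_
    rw [hφ, norm_mul]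
    have h1 : ‖l i‖ ≤ 1 := by
      by_contra h
      push Not at h
      exact (mem_compl.mp hi) (mem_filter.mpr ⟨mem_univ _, h⟩)
    exact mul_le_of_le_one_left (norm_nonneg _) h1
  set L : ℝ := ∑ i, ‖φ i‖ with hL
  have hLpos : 0 < L := by
    have h1 : ‖φ i₀‖ ≤ L := single_le_sum (fun i _ => norm_nonneg (φ i)) (mem_univ i₀)
    have h2 : 0 < ‖φ i₀‖ := norm_pos_iff.mpr hi₀φ
    linarith
  have hLe : ∀ v, Su v + Ss v ≤ L * ‖v‖ := by
    intro v
    simp only [hSu, hSs]
    rw [sum_add_sum_compl, hL, sum_mul]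
    exact sum_le_sum fun i _ => (φ i).le_opNorm v
  obtain ⟨K, hK, hKv⟩ : ∃ K : ℝ, 0 < K ∧ ∀ v, ‖v‖ ≤ K * (Su v + Ss v) := by
    have hker : LinearMap.ker (ContinuousLinearMap.pi φ : E →L[ℝ] (ι → ℂ)).toLinearMap = ⊥ := by
      rw [LinearMap.ker_eq_bot']
      intro v hv
      apply hinj v
      intro i
      exact congrFun hv i
    obtain ⟨K, hK, hKa⟩ := LinearMap.exists_antilipschitzWith _ hker
    refine ⟨K, by exact_mod_cast hK, fun v => ?_⟩
    have h1 := hKa.le_mul_dist v 0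
    rw [map_zero, dist_zero_right, dist_zero_right] at h1
    refine h1.trans (mul_le_mul_of_nonneg_left ?_ K.2)
    rw [pi_norm_le_iff_of_nonneg (by have := hSu0 v; have := hSs0 v; positivity)]
    intro i
    simp only [hSu, hSs]
    rw [sum_add_sum_compl]
    exact single_le_sum (f := fun i => ‖φ i v‖) (fun i _ => norm_nonneg _) (mem_univ i)
  -- subadditivity
  have hSub : ∀ v v', Su v' ≤ Su v + L * ‖v - v'‖ ∧ Ss v' ≤ Ss v + L * ‖v - v'‖ := by
    intro v v'
    have h1 := hLe (v - v')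
    have h2 : Su v' ≤ Su v + Su (v - v') := by
      simp only [hSu]
      rw [← sum_add_distrib]
      refine sum_le_sum fun i _ => ?_
      rw [map_sub]
      calc ‖φ i v'‖ = ‖φ i v - (φ i v - φ i v')‖ := by congr 1; ring
        _ ≤ _ := norm_sub_le _ _
    have h3 : Ss v' ≤ Ss v + Ss (v - v') := by
      simp only [hSs]
      rw [← sum_add_distrib]
      refine sum_le_sum fun i _ => ?_
      rw [map_sub]
      calc ‖φ i v'‖ = ‖φ i v - (φ i v - φ i v')‖ := by congr 1; ring
        _ ≤ _ := norm_sub_le _ _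
    have h4 := hSu0 (v - v')
    have h5 := hSs0 (v - v')
    constructor <;> linarith
  -- the start vector
  obtain ⟨v, hv⟩ : ∃ v, φ i₀ v ≠ 0 := by
    by_contra h
    push Not at h
    exact hi₀φ (ContinuousLinearMap.ext fun v => by rw [h v]; rfl)
  have hSuv : 0 < Su v := by
    have h1 : ‖φ i₀ v‖ ≤ Su v :=
      single_le_sum (f := fun i => ‖φ i v‖) (fun i _ => norm_nonneg _) hi₀U
    have h2 : 0 < ‖φ i₀ v‖ := norm_pos_iff.mpr hv
    linarith
  have hiter : ∀ k : ℕ, g₀ ^ k * Su v ≤ Su ((M ^ k) v) ∧ Ss ((M ^ k) v) ≤ Ss v := by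
    intro k
    induction k with
    | zero => simp
    | succ k ih =>
      have h1 : (M ^ (k + 1)) v = M ((M ^ k) v) := by
        rw [pow_succ']; rfl
      rw [h1]
      constructor
      · calc g₀ ^ (k + 1) * Su v = g₀ * (g₀ ^ k * Su v) := by ring
          _ ≤ g₀ * Su ((M ^ k) v) := mul_le_mul_of_nonneg_left ih.1 (by linarith)
          _ ≤ _ := hSuM _
      · exact (hSsM _).trans ih.2
  obtain ⟨k, hk⟩ := pow_unbounded_of_one_lt (Ss v / Su v) hg₀1
  rw [div_lt_iff₀ hSuv] at hk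
  set v0 : E := (M ^ k) v with hv0
  have hv0c : Ss v0 ≤ Su v0 := (hiter k).2.trans (hk.le.trans (hiter k).1)
  have hv0p : 0 < Su v0 := by
    have h1 : 0 < g₀ ^ k * Su v := by positivity
    linarith [(hiter k).1]
  have hsm : ∀ (s : ℝ) (x : E), Su (s • x) = |s| * Su x ∧ Ss (s • x) = |s| * Ss x := by
    intro s x
    constructor
    · simp only [hSu]
      rw [mul_sum]
      refine sum_congr rfl fun i _ => ?_
      rw [map_smul, norm_smul, Real.norm_eq_abs]
    · simp only [hSs]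
      rw [mul_sum]
      refine sum_congr rfl fun i _ => ?_
      rw [map_smul, norm_smul, Real.norm_eq_abs]
  refine ⟨v0, ?_, (g₀ - 1) / (6 * K * L), by
    have : 0 < g₀ - 1 := by linarith
    positivity, ?_⟩
  · intro h
    rw [h] at hv0p
    have : Su 0 = 0 := by simp [hSu]
    linarith
  · rintro w ⟨s, hs, hw0⟩ hw C
    set g : ℝ := 1 + 2 * (g₀ - 1) / 3 with hg
    have hg1 : 1 < g := by rw [hg]; linarith
    have hind : ∀ n, Ss (w n) ≤ Su (w n) ∧ g ^ n * (|s| * Su v0) ≤ Su (w n) := by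
      intro n
      induction n with
      | zero =>
        rw [hw0, (hsm s v0).1, (hsm s v0).2, pow_zero, one_mul]
        exact ⟨mul_le_mul_of_nonneg_left hv0c (abs_nonneg s), le_rfl⟩
      | succ n ih =>
        obtain ⟨ih1, ih2⟩ := ih
        have h1 := hSub (M (w n)) (w (n + 1))
        have h1' := hSub (w (n + 1)) (M (w n))
        have h2 := hw n
        have h3 : ‖w n‖ ≤ 2 * K * Su (w n) := by
          have := hKv (w n)
          nlinarith [this, ih1, hK]
        have h4 : L * ‖w (n + 1) - M (w n)‖ ≤ (g₀ - 1) / 3 * Su (w n) := by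
          calc L * ‖w (n + 1) - M (w n)‖ ≤ L * ((g₀ - 1) / (6 * K * L) * (2 * K * Su (w n))) := by
                refine mul_le_mul_of_nonneg_left (h2.trans ?_) hLpos.le
                refine mul_le_mul_of_nonneg_left h3 ?_
                have : 0 < g₀ - 1 := by linarith
                positivity
            _ = (g₀ - 1) / 3 * Su (w n) := by
                field_simp
                ring
        have h4' : L * ‖M (w n) - w (n + 1)‖ ≤ (g₀ - 1) / 3 * Su (w n) := by
          rw [norm_sub_rev]; exact h4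
        have h5 := hSuM (w n)
        have h6 := hSsM (w n)
        have h7 := h1'.1
        have h8 := h1.2
        have h9 := hSu0 (w n)
        have h10 : g * Su (w n) ≤ Su (w (n + 1)) := by
          rw [hg]
          nlinarith
        refine ⟨?_, ?_⟩
        · have : Ss (w (n + 1)) ≤ g * Su (w n) := by
            rw [hg]
            nlinarith
          linarith
        · calc g ^ (n + 1) * (|s| * Su v0) = g * (g ^ n * (|s| * Su v0)) := by ring
            _ ≤ g * Su (w n) := mul_le_mul_of_nonneg_left ih2 (by linarith)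
            _ ≤ _ := h10
    have hpos : 0 < |s| * Su v0 := mul_pos (abs_pos.mpr hs) hv0p
    obtain ⟨n, hn⟩ := pow_unbounded_of_one_lt (C * L / (|s| * Su v0)) hg1
    rw [div_lt_iff₀ hpos] at hn
    refine ⟨n, ?_⟩
    have h1 := (hind n).2
    have h2 := hLe (w n)
    have h3 := hSs0 (w n)
    have h4 : C * L < L * ‖w n‖ := by linarith
    nlinarith

end Pool.Agent.D0H2.BF
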