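import Pool.Agent.D0H2.BF.DichFin
import Pool.Agent.D0H95.BF.Stm5

/-!
# Project BF (helper95), module DICH (helper2)
-/

set_option autoImplicit false

namespace Pool.Agent.D0H2.BF

open Pool.Agent.D0H95.BF

theorem t_DICH : S_DICH := by
  intro M hM hnd
  exact dich_op M hM (tr M) (b2 M) rfl rfl hnd

end Pool.Agent.D0H2.BF
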