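import Mathlib

/-!
# Project BF (helper95), module DICH (helper2): symplectic operators in dimension four
-/

set_option autoImplicit false

namespace Pool.Agent.D0H2.BF

open Matrix

/-- `- J Aᵀ J` -/
def Nm (A : Matrix (Fin 4) (Fin 4) ℂ) : Matrix (Fin 4) (Fin 4) ℂ :=
  !![A 2 2, A 3 2, -A 0 2, -A 1 2; A 2 3, A 3 3, -A 0 3, -A 1 3;
    -A 2 0, -A 3 0, A 0 0, A 1 0; -A 2 1, -A 3 1, A 0 1, A 1 1]

/-- the constant term of the quadratic equation -/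
def qf (A : Matrix (Fin 4) (Fin 4) ℂ) : ℂ :=
  (A 0 0 + A 2 2) * (A 1 1 + A 3 3) - (A 0 1 + A 3 2) * (A 1 0 + A 2 3) +
    (A 0 3 - A 1 2) * (A 2 1 - A 3 0)

theorem quad (A : Matrix (Fin 4) (Fin 4) ℂ) :
    (A + Nm A) * (A + Nm A) = A.trace • (A + Nm A) - qf A • (1 : Matrix (Fin 4) (Fin 4) ℂ) := by
  ext i j
  fin_cases i <;> fin_cases j <;>
    simp [Nm, qf, Matrix.mul_apply, Fin.sum_univ_four, Matrix.trace] <;> ring

theorem tr_N (A : Matrix (Fin 4) (Fin 4) ℂ) : (Nm A).trace = A.trace := by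
  simp [Nm, Fin.sum_univ_four, Matrix.trace]
  ring

theorem tr_NN (A : Matrix (Fin 4) (Fin 4) ℂ) : (Nm A * Nm A).trace = (A * A).trace := by
  simp [Nm, Matrix.mul_apply, Fin.sum_univ_four, Matrix.trace]
  ring

theorem four_qf (A : Matrix (Fin 4) (Fin 4) ℂ) (h : Nm A * A = 1) :
    4 * qf A = 2 * A.trace ^ 2 - 2 * (A * A).trace - 8 := by
  have h' : A * Nm A = 1 := mul_eq_one_comm.mp h
  have h1 := congrArg Matrix.trace (quad A)
  rw [add_mul, mul_add, mul_add, h, h'] at h1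
  simp only [trace_add, trace_sub, trace_smul, trace_one, Fintype.card_fin, smul_eq_mul,
    tr_N, tr_NN] at h1
  push_cast at h1
  linear_combination h1

/-- every root of `p` is an eigenvalue -/
theorem eig (A : Matrix (Fin 4) (Fin 4) ℂ) (h : Nm A * A = 1) (z₁ z₂ μ : ℂ)
    (hs : z₁ + z₂ = A.trace) (hp : z₁ * z₂ = qf A) (hz : z₁ ≠ z₂) (hμ0 : μ ≠ 0)
    (hμ : μ ^ 2 - z₁ * μ + 1 = 0) (hμ1 : μ ^ 2 ≠ 1) :
    (A - μ • (1 : Matrix (Fin 4) (Fin 4) ℂ)).det = 0 := by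
  by_contra hdet
  have h' : A * Nm A = 1 := mul_eq_one_comm.mp h
  set Z := A + Nm A with hZ
  set B := (A - μ⁻¹ • (1 : Matrix (Fin 4) (Fin 4) ℂ)) * (Z - z₂ • (1 : Matrix (Fin 4) (Fin 4) ℂ))
    with hB
  have hμs : μ + μ⁻¹ = z₁ := by
    field_simp
    linear_combination hμ
  have e1 : (A - μ • (1 : Matrix (Fin 4) (Fin 4) ℂ)) * (A - μ⁻¹ • (1 : Matrix (Fin 4) (Fin 4) ℂ)) =
      A * (Z - z₁ • (1 : Matrix (Fin 4) (Fin 4) ℂ)) := by
    rw [hZ, ← hμs]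
    simp only [sub_mul, mul_sub, mul_add, h', smul_mul_assoc, mul_smul_comm, one_mul, mul_one,
      smul_sub, smul_smul, inv_mul_cancel₀ hμ0, one_smul, add_smul]
    abel
  have e2 : (Z - z₁ • (1 : Matrix (Fin 4) (Fin 4) ℂ)) * (Z - z₂ • (1 : Matrix (Fin 4) (Fin 4) ℂ)) =
      0 := by
    have hq := quad A
    rw [← hZ] at hq
    rw [sub_mul, mul_sub, mul_sub]
    simp only [smul_mul_assoc, mul_smul_comm, one_mul, mul_one, smul_smul]
    rw [hq, ← hs, ← hp, add_smul, mul_comm z₂ z₁]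
    abel
  have e3 : (A - μ • (1 : Matrix (Fin 4) (Fin 4) ℂ)) * B = 0 := by
    rw [hB, ← mul_assoc, e1, mul_assoc, e2, mul_zero]
  have e4 : B = 0 := by
    have hu : IsUnit (A - μ • (1 : Matrix (Fin 4) (Fin 4) ℂ)) := by
      rw [Matrix.isUnit_iff_isUnit_det]
      exact isUnit_iff_ne_zero.mpr hdet
    exact hu.mul_right_eq_zero.mp e3
  have e5 := congrArg Matrix.trace e4
  rw [hB, hZ, sub_mul, mul_sub, mul_sub, mul_add, h'] at e5
  simp only [smul_mul_assoc, mul_smul_comm, one_mul, mul_one, smul_smul, trace_add, trace_sub,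
    trace_smul, trace_one, Fintype.card_fin, smul_eq_mul, tr_N, trace_zero] at e5
  push_cast at e5
  have e6 := four_qf A h
  rw [← hp, ← hs] at e6
  rw [← hs] at e5
  have e7 : (A * A).trace = (z₁ + z₂) ^ 2 - 2 * (z₁ * z₂) - 4 := by linear_combination (1/2) * e6
  rw [e7] at e5
  have e8 : (z₁ - z₂) * (z₁ - 2 * μ⁻¹) = 0 := by linear_combination e5
  rcases mul_eq_zero.mp e8 with h1 | h1
  · exact hz (sub_eq_zero.mp h1)
  · apply hμ1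
    have h2 : μ = μ⁻¹ := by linear_combination h1 + hμs
    calc μ ^ 2 = μ * μ := sq μ
      _ = μ * μ⁻¹ := by rw [← h2]
      _ = 1 := mul_inv_cancel₀ hμ0

theorem exists_sqrt (c : ℂ) : ∃ s : ℂ, s ^ 2 = c := by
  obtain ⟨s, hs⟩ := IsAlgClosed.exists_pow_nat_eq c (n := 2) (by norm_num)
  exact ⟨s, hs⟩

/-- the roots -/
theorem roots (A : Matrix (Fin 4) (Fin 4) ℂ) (h : Nm A * A = 1) (b : ℂ)
    (hb : b = (A.trace ^ 2 - (A * A).trace) / 2)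
    (hnd : (A.trace ^ 2 - 4 * b + 8) * ((b + 2) ^ 2 - 4 * A.trace ^ 2) ≠ 0) :
    ∃ z₁ z₂ μ₁ μ₂ : ℂ, z₁ ≠ z₂ ∧ μ₁ ≠ 0 ∧ μ₂ ≠ 0 ∧ μ₁ ^ 2 - z₁ * μ₁ + 1 = 0 ∧
      μ₂ ^ 2 - z₂ * μ₂ + 1 = 0 ∧ μ₁ ^ 2 ≠ 1 ∧ μ₂ ^ 2 ≠ 1 ∧
      (A - μ₁ • (1 : Matrix (Fin 4) (Fin 4) ℂ)).det = 0 ∧
      (A - μ₁⁻¹ • (1 : Matrix (Fin 4) (Fin 4) ℂ)).det = 0 ∧
      (A - μ₂ • (1 : Matrix (Fin 4) (Fin 4) ℂ)).det = 0 ∧
      (A - μ₂⁻¹ • (1 : Matrix (Fin 4) (Fin 4) ℂ)).det = 0 := by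
  have hq : b = qf A + 2 := by
    have := four_qf A h
    rw [hb]
    linear_combination -(1/4) * this
  obtain ⟨s, hs⟩ := exists_sqrt (A.trace ^ 2 - 4 * b + 8)
  have hs0 : s ≠ 0 := by
    intro h0
    rw [h0] at hs
    apply hnd
    rw [← hs]
    ring
  set z₁ := (A.trace + s) / 2 with hz₁
  set z₂ := (A.trace - s) / 2 with hz₂
  have hsum : z₁ + z₂ = A.trace := by rw [hz₁, hz₂]; ring
  have hprod : z₁ * z₂ = qf A := by
    rw [hz₁, hz₂]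
    linear_combination (-(1/4) : ℂ) * hs + hq
  have hne : z₁ ≠ z₂ := by
    intro h0
    apply hs0
    rw [hz₁, hz₂] at h0
    linear_combination h0
  have hpm : ((z₁ - 2) * (z₂ - 2)) * ((z₁ + 2) * (z₂ + 2)) ≠ 0 := by
    intro h0
    apply hnd
    have : (b + 2) ^ 2 - 4 * A.trace ^ 2 = ((z₁ - 2) * (z₂ - 2)) * ((z₁ + 2) * (z₂ + 2)) := by
      rw [hq, ← hsum, ← hprod]; ring
    rw [this, h0, mul_zero]
  have key : ∀ z : ℂ, z ≠ 2 → z ≠ -2 → ∃ μ : ℂ, μ ≠ 0 ∧ μ ^ 2 - z * μ + 1 = 0 ∧ μ ^ 2 ≠ 1 := by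
    intro z h2 h2'
    obtain ⟨t, ht⟩ := exists_sqrt (z ^ 2 - 4)
    have hμ : ((z + t) / 2) ^ 2 - z * ((z + t) / 2) + 1 = 0 := by
      linear_combination (1/4 : ℂ) * ht
    refine ⟨(z + t) / 2, ?_, hμ, ?_⟩
    · intro h0
      rw [h0] at hμ
      simp at hμ
    · intro h1
      rw [h1] at hμ
      have h3 : z * ((z + t) / 2) = 2 := by linear_combination -hμ
      have h4 : (z - 2) * (z + 2) = 0 := by
        have h5 : (z * ((z + t) / 2)) ^ 2 = 4 := by rw [h3]; norm_num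
        rw [mul_pow, h1, mul_one] at h5
        linear_combination h5
      rcases mul_eq_zero.mp h4 with h5 | h5
      · exact h2 (sub_eq_zero.mp h5)
      · exact h2' (eq_neg_of_add_eq_zero_left h5)
  have ha1 : z₁ ≠ 2 := fun h0 => hpm (by rw [h0]; ring)
  have ha2 : z₁ ≠ -2 := fun h0 => hpm (by rw [h0]; ring)
  have ha3 : z₂ ≠ 2 := fun h0 => hpm (by rw [h0]; ring)
  have ha4 : z₂ ≠ -2 := fun h0 => hpm (by rw [h0]; ring)
  obtain ⟨μ₁, h10, h11, h12⟩ := key z₁ ha1 ha2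
  obtain ⟨μ₂, h20, h21, h22⟩ := key z₂ ha3 ha4
  have hinv : ∀ z μ : ℂ, μ ≠ 0 → μ ^ 2 - z * μ + 1 = 0 → μ ^ 2 ≠ 1 →
      μ⁻¹ ≠ 0 ∧ μ⁻¹ ^ 2 - z * μ⁻¹ + 1 = 0 ∧ μ⁻¹ ^ 2 ≠ 1 := by
    intro z μ h0 h1 h2
    refine ⟨inv_ne_zero h0, ?_, ?_⟩
    · field_simp
      linear_combination h1
    · intro h3
      apply h2
      rw [inv_pow, inv_eq_one] at h3
      exact h3
  obtain ⟨i10, i11, i12⟩ := hinv z₁ μ₁ h10 h11 h12
  obtain ⟨i20, i21, i22⟩ := hinv z₂ μ₂ h20 h21 h22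
  have hsum' : z₂ + z₁ = A.trace := by rw [add_comm]; exact hsum
  have hprod' : z₂ * z₁ = qf A := by rw [mul_comm]; exact hprod
  exact ⟨z₁, z₂, μ₁, μ₂, hne, h10, h20, h11, h21, h12, h22,
    eig A h z₁ z₂ μ₁ hsum hprod hne h10 h11 h12,
    eig A h z₁ z₂ _ hsum hprod hne i10 i11 i12,
    eig A h z₂ z₁ μ₂ hsum' hprod' hne.symm h20 h21 h22,
    eig A h z₂ z₁ _ hsum' hprod' hne.symm i20 i21 i22⟩

/-- the complexification -/
noncomputable abbrev cx (A : Matrix (Fin 4) (Fin 4) ℝ) : Matrix (Fin 4) (Fin 4) ℂ :=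
  A.map (fun t => (t : ℂ))

theorem left_basis (A : Matrix (Fin 4) (Fin 4) ℂ) (l : Fin 4 → ℂ) (hl : Function.Injective l)
    (hdet : ∀ i, (A - l i • (1 : Matrix (Fin 4) (Fin 4) ℂ)).det = 0) :
    ∃ r : Fin 4 → Fin 4 → ℂ, (∀ i, r i ᵥ* A = l i • r i) ∧ (∀ i, r i ≠ 0) ∧
      ∀ x : Fin 4 → ℂ, (∀ i, r i ⬝ᵥ x = 0) → x = 0 := by
  have h1 : ∀ i, ∃ v : Fin 4 → ℂ, v ≠ 0 ∧ v ᵥ* A = l i • v := by
    intro i
    obtain ⟨v, hv, hv0⟩ := Matrix.exists_vecMul_eq_zero_iff.mpr (hdet i)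
    refine ⟨v, hv, ?_⟩
    rw [vecMul_sub, vecMul_smul, vecMul_one] at hv0
    exact sub_eq_zero.mp hv0
  choose r hr0 hr using h1
  refine ⟨r, hr, hr0, fun x hx => ?_⟩
  have hli : LinearIndependent ℂ r := by
    refine Module.End.eigenvectors_linearIndependent' (Matrix.toLin' Aᵀ) l hl r fun i => ?_
    refine ⟨Module.End.mem_eigenspace_iff.mpr ?_, hr0 i⟩
    rw [Matrix.toLin'_apply, mulVec_transpose]
    exact hr i
  have hu : IsUnit (Matrix.of r) := by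
    rw [← Matrix.linearIndependent_rows_iff_isUnit]
    exact hli
  have hd : (Matrix.of r).det ≠ 0 := by
    rw [Matrix.isUnit_iff_isUnit_det] at hu
    exact hu.ne_zero
  apply Matrix.eq_zero_of_mulVec_eq_zero hd
  ext i
  exact hx i

/-- real and imaginary part of an eigenvector to an eigenvalue of modulus one -/
theorem ell_pair (A : Matrix (Fin 4) (Fin 4) ℝ) (μ : ℂ) (hμ : ‖μ‖ = 1) (hμ1 : μ ^ 2 ≠ 1)
    (hdet : (cx A - μ • (1 : Matrix (Fin 4) (Fin 4) ℂ)).det = 0) :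
    ∃ α : ℝ, Real.cos α = μ.re ∧ Real.sin α ≠ 0 ∧ ∃ q s : Fin 4 → ℝ, q ≠ 0 ∧
      A *ᵥ q = Real.cos α • q - Real.sin α • s ∧ A *ᵥ s = Real.sin α • q + Real.cos α • s := by
  have hμ0 : μ ≠ 0 := by
    intro h
    rw [h, norm_zero] at hμ
    exact zero_ne_one hμ
  have hcos : Real.cos μ.arg = μ.re := by rw [Complex.cos_arg hμ0, hμ, div_one]
  have hsin : Real.sin μ.arg = μ.im := by rw [Complex.sin_arg, hμ, div_one]
  have him : μ.im ≠ 0 := by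
    intro h
    apply hμ1
    have h1 : μ = (μ.re : ℂ) := by
      apply Complex.ext
      · simp
      · simp [h]
    have h2 : μ.re ^ 2 = 1 := by
      have h3 := Complex.sq_norm μ
      rw [hμ, Complex.normSq_apply, h] at h3
      linarith
    rw [h1, ← Complex.ofReal_pow, h2, Complex.ofReal_one]
  obtain ⟨v, hv, hv0⟩ := Matrix.exists_mulVec_eq_zero_iff.mpr hdet
  rw [sub_mulVec, smul_mulVec, one_mulVec, sub_eq_zero] at hv0
  have hre : A *ᵥ (fun k => (v k).re) = μ.re • (fun k => (v k).re) - μ.im • (fun k => (v k).im) := by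
    ext k
    have h1 := congrArg Complex.re (congrFun hv0 k)
    simp only [Matrix.mulVec, dotProduct, Matrix.map_apply, Complex.re_sum, Pi.smul_apply,
      smul_eq_mul, Complex.mul_re, Complex.ofReal_re, Complex.ofReal_im, zero_mul, sub_zero] at h1
    simp only [Matrix.mulVec, dotProduct, Pi.sub_apply, Pi.smul_apply, smul_eq_mul]
    exact h1
  have him' : A *ᵥ (fun k => (v k).im) = μ.im • (fun k => (v k).re) + μ.re • (fun k => (v k).im) := by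
    ext k
    have h1 := congrArg Complex.im (congrFun hv0 k)
    simp only [Matrix.mulVec, dotProduct, Matrix.map_apply, Complex.im_sum, Pi.smul_apply,
      smul_eq_mul, Complex.mul_im, Complex.ofReal_re, Complex.ofReal_im, zero_mul, add_zero] at h1
    simp only [Matrix.mulVec, dotProduct, Pi.add_apply, Pi.smul_apply, smul_eq_mul]
    rw [h1]
    ring
  refine ⟨μ.arg, hcos, by rw [hsin]; exact him, fun k => (v k).re, fun k => (v k).im, ?_, ?_, ?_⟩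
  · intro hq
    rw [hq, mulVec_zero, smul_zero, zero_sub] at hre
    apply hv
    funext k
    apply Complex.ext
    · exact congrFun hq k
    · have h1 := congrFun hre k
      simp only [Pi.zero_apply, Pi.neg_apply, Pi.smul_apply, smul_eq_mul] at h1
      have h2 : μ.im * (v k).im = 0 := by linarith
      simpa using (mul_eq_zero.mp h2).resolve_left him
  · rw [hcos, hsin]; exact hre
  · rw [hcos, hsin]; exact him'

theorem dich_mat (A : Matrix (Fin 4) (Fin 4) ℝ) (h : Nm (cx A) * cx A = 1) (b : ℝ)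
    (hb : b = (A.trace ^ 2 - (A * A).trace) / 2)
    (hnd : (A.trace ^ 2 - 4 * b + 8) * ((b + 2) ^ 2 - 4 * A.trace ^ 2) ≠ 0) :
    (∃ (r : Fin 4 → Fin 4 → ℂ) (l : Fin 4 → ℂ), (∀ i, r i ᵥ* cx A = l i • r i) ∧
      (∀ i, r i ≠ 0) ∧ (∀ x : Fin 4 → ℂ, (∀ i, r i ⬝ᵥ x = 0) → x = 0) ∧ ∃ i, 1 < ‖l i‖) ∨
    (∃ α β : ℝ, Real.sin α ≠ 0 ∧ Real.sin β ≠ 0 ∧ Real.cos α ≠ Real.cos β ∧
      (∃ q s : Fin 4 → ℝ, q ≠ 0 ∧ A *ᵥ q = Real.cos α • q - Real.sin α • s ∧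
        A *ᵥ s = Real.sin α • q + Real.cos α • s) ∧
      (∃ q s : Fin 4 → ℝ, q ≠ 0 ∧ A *ᵥ q = Real.cos β • q - Real.sin β • s ∧
        A *ᵥ s = Real.sin β • q + Real.cos β • s)) := by
  have htr : (cx A).trace = (A.trace : ℂ) := by
    simp [Matrix.trace]
  have htr2 : (cx A * cx A).trace = ((A * A).trace : ℂ) := by
    simp [Matrix.trace, Matrix.mul_apply]
  obtain ⟨z₁, z₂, μ₁, μ₂, hz, h10, h20, h11, h21, h12, h22, d1, d1', d2, d2'⟩ :=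
    roots (cx A) h (b : ℂ) (by rw [htr, htr2, hb]; push_cast; rfl)
      (by rw [htr]; exact_mod_cast hnd)
  have hz1 : z₁ = μ₁ + μ₁⁻¹ := by
    field_simp
    linear_combination -h11
  have hz2 : z₂ = μ₂ + μ₂⁻¹ := by
    field_simp
    linear_combination -h21
  by_cases hbig : 1 < ‖μ₁‖ ∨ 1 < ‖μ₁⁻¹‖ ∨ 1 < ‖μ₂‖ ∨ 1 < ‖μ₂⁻¹‖
  · left
    have n1 : μ₁ ≠ μ₁⁻¹ := fun h0 => h12 (by
      calc μ₁ ^ 2 = μ₁ * μ₁ := sq _
        _ = μ₁ * μ₁⁻¹ := by rw [← h0]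
        _ = 1 := mul_inv_cancel₀ h10)
    have n2 : μ₂ ≠ μ₂⁻¹ := fun h0 => h22 (by
      calc μ₂ ^ 2 = μ₂ * μ₂ := sq _
        _ = μ₂ * μ₂⁻¹ := by rw [← h0]
        _ = 1 := mul_inv_cancel₀ h20)
    have n3 : μ₁ ≠ μ₂ := fun h0 => hz (by rw [hz1, hz2, h0])
    have n4 : μ₁ ≠ μ₂⁻¹ := fun h0 => hz (by rw [hz1, hz2, h0, inv_inv, add_comm])
    have n5 : μ₁⁻¹ ≠ μ₂ := fun h0 => hz (by rw [hz1, hz2, ← h0, inv_inv, add_comm])
    have n6 : μ₁⁻¹ ≠ μ₂⁻¹ := fun h0 => n3 (inv_injective h0)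
    have hl : Function.Injective ![μ₁, μ₁⁻¹, μ₂, μ₂⁻¹] := by
      intro i j hij
      fin_cases i <;> fin_cases j <;> simp at hij ⊢ <;>
        first
        | exact n1 hij | exact n1 hij.symm | exact n2 hij | exact n2 hij.symm
        | exact n3 hij | exact n3 hij.symm | exact n4 hij | exact n4 hij.symm
        | exact n5 hij | exact n5 hij.symm
    have hdet : ∀ i, (cx A - (![μ₁, μ₁⁻¹, μ₂, μ₂⁻¹] : Fin 4 → ℂ) i •
        (1 : Matrix (Fin 4) (Fin 4) ℂ)).det = 0 := by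
      intro i
      fin_cases i
      · exact d1
      · exact d1'
      · exact d2
      · exact d2'
    obtain ⟨r, hr1, hr2, hr3⟩ := left_basis (cx A) _ hl hdet
    refine ⟨r, _, hr1, hr2, hr3, ?_⟩
    rcases hbig with h0 | h0 | h0 | h0
    · exact ⟨0, h0⟩
    · exact ⟨1, h0⟩
    · exact ⟨2, h0⟩
    · exact ⟨3, h0⟩
  · right
    push Not at hbig
    obtain ⟨k1, k2, k3, k4⟩ := hbig
    have one : ∀ μ : ℂ, μ ≠ 0 → ‖μ‖ ≤ 1 → ‖μ⁻¹‖ ≤ 1 → ‖μ‖ = 1 := by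
      intro μ h0 ha hb'
      rw [norm_inv] at hb'
      have hp : 0 < ‖μ‖ := norm_pos_iff.mpr h0
      refine le_antisymm ha ?_
      exact (inv_le_one₀ hp).mp hb'
    have m1 := one μ₁ h10 k1 k2
    have m2 := one μ₂ h20 k3 k4
    have hre : ∀ μ : ℂ, ‖μ‖ = 1 → μ + μ⁻¹ = ((2 * μ.re : ℝ) : ℂ) := by
      intro μ hμ
      rw [Complex.inv_def, Complex.normSq_eq_norm_sq, hμ]
      simp [Complex.add_conj]
    obtain ⟨α, ha1, ha2, hpa⟩ := ell_pair A μ₁ m1 h12 d1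
    obtain ⟨β, hb1, hb2, hpb⟩ := ell_pair A μ₂ m2 h22 d2
    refine ⟨α, β, ha2, hb2, ?_, hpa, hpb⟩
    intro h0
    apply hz
    rw [hz1, hz2, hre μ₁ m1, hre μ₂ m2, ← ha1, ← hb1, h0]

/-- real coordinates -/
def e4 : (ℂ × ℂ) ≃ₗ[ℝ] (Fin 4 → ℝ) where
  toFun v := ![v.1.re, v.1.im, v.2.re, v.2.im]
  invFun x := (⟨x 0, x 1⟩, ⟨x 2, x 3⟩)
  map_add' v w := by
    ext k
    fin_cases k <;> simp
  map_smul' c v := by
    ext k
    fin_cases k <;> simp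
  left_inv v := by simp
  right_inv x := by
    ext k
    fin_cases k <;> simp

/-- the matrix -/
noncomputable def mat (M : ℂ × ℂ →L[ℝ] ℂ × ℂ) : Matrix (Fin 4) (Fin 4) ℝ :=
  LinearMap.toMatrix' (e4.conj (M : ℂ × ℂ →ₗ[ℝ] ℂ × ℂ))

theorem mat_mulVec (M : ℂ × ℂ →L[ℝ] ℂ × ℂ) (v : ℂ × ℂ) : mat M *ᵥ e4 v = e4 (M v) := by
  unfold mat
  rw [← Matrix.toLin'_apply, Matrix.toLin'_toMatrix', LinearEquiv.conj_apply]
  simp

theorem mat_comp (M N : ℂ × ℂ →L[ℝ] ℂ × ℂ) : mat (M.comp N) = mat M * mat N := by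
  unfold mat
  rw [← LinearMap.toMatrix'_comp, ← LinearEquiv.conj_comp]
  rfl

theorem mat_trace (M : ℂ × ℂ →L[ℝ] ℂ × ℂ) :
    LinearMap.trace ℝ (ℂ × ℂ) (M : ℂ × ℂ →ₗ[ℝ] ℂ × ℂ) = (mat M).trace := by
  rw [← LinearMap.trace_conj' (M : ℂ × ℂ →ₗ[ℝ] ℂ × ℂ) e4]
  rw [show e4.conj (M : ℂ × ℂ →ₗ[ℝ] ℂ × ℂ) = Matrix.toLin' (mat M) by
    unfold mat; rw [Matrix.toLin'_toMatrix']]
  rw [Matrix.trace_toLin'_eq]

/-- the standard symplectic matrix -/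
def Jm : Matrix (Fin 4) (Fin 4) ℝ := !![0, 0, 1, 0; 0, 0, 0, 1; -1, 0, 0, 0; 0, -1, 0, 0]

theorem symp_mat (M : ℂ × ℂ →L[ℝ] ℂ × ℂ)
    (hM : ∀ x y : ℂ × ℂ, ((starRingEnd ℂ) (M x).1 * (M y).2).re -
      ((starRingEnd ℂ) (M y).1 * (M x).2).re =
      ((starRingEnd ℂ) x.1 * y.2).re - ((starRingEnd ℂ) y.1 * x.2).re) :
    Nm (cx (mat M)) * cx (mat M) = 1 := by
  set A := mat M with hA
  have hcol : ∀ i k, A k i = e4 (M (e4.symm (Pi.single i 1))) k := by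
    intro i k
    rw [← mat_mulVec, LinearEquiv.apply_symm_apply]
    simp [A, Matrix.mulVec_single]
  have hJ : ∀ i j, A 0 i * A 2 j + A 1 i * A 3 j - (A 0 j * A 2 i + A 1 j * A 3 i) = Jm i j := by
    intro i j
    have h := hM (e4.symm (Pi.single i 1)) (e4.symm (Pi.single j 1))
    have h1 : ((starRingEnd ℂ) (M (e4.symm (Pi.single i 1))).1 *
        (M (e4.symm (Pi.single j 1))).2).re = A 0 i * A 2 j + A 1 i * A 3 j := by
      rw [hcol, hcol, hcol, hcol]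
      simp [e4, Complex.mul_re]
    have h2 : ((starRingEnd ℂ) (M (e4.symm (Pi.single j 1))).1 *
        (M (e4.symm (Pi.single i 1))).2).re = A 0 j * A 2 i + A 1 j * A 3 i := by
      rw [hcol, hcol, hcol, hcol]
      simp [e4, Complex.mul_re]
    rw [h1, h2] at h
    rw [h]
    fin_cases i <;> fin_cases j <;> simp [e4, Jm, Complex.mul_re]
  have hc : ∀ i j, (A 0 i : ℂ) * A 2 j + A 1 i * A 3 j - (A 0 j * A 2 i + A 1 j * A 3 i) =
      ((Jm i j : ℝ) : ℂ) := by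
    intro i j
    rw [← hJ i j]
    push_cast
    ring
  have r0 : ∀ j, (Nm (cx A) * cx A) 0 j = ((Jm j 2 : ℝ) : ℂ) := by
    intro j
    rw [← hc j 2]
    simp [Nm, Matrix.mul_apply, Fin.sum_univ_four]
    ring
  have r1 : ∀ j, (Nm (cx A) * cx A) 1 j = ((Jm j 3 : ℝ) : ℂ) := by
    intro j
    rw [← hc j 3]
    simp [Nm, Matrix.mul_apply, Fin.sum_univ_four]
    ring
  have r2 : ∀ j, (Nm (cx A) * cx A) 2 j = -((Jm j 0 : ℝ) : ℂ) := by
    intro j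
    rw [← hc j 0]
    simp [Nm, Matrix.mul_apply, Fin.sum_univ_four]
    ring
  have r3 : ∀ j, (Nm (cx A) * cx A) 3 j = -((Jm j 1 : ℝ) : ℂ) := by
    intro j
    rw [← hc j 1]
    simp [Nm, Matrix.mul_apply, Fin.sum_univ_four]
    ring
  ext i j
  fin_cases i
  · show (Nm (cx A) * cx A) 0 j = _
    rw [r0]
    fin_cases j <;> simp [Jm]
  · show (Nm (cx A) * cx A) 1 j = _
    rw [r1]
    fin_cases j <;> simp [Jm]
  · show (Nm (cx A) * cx A) 2 j = _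
    rw [r2]
    fin_cases j <;> simp [Jm]
  · show (Nm (cx A) * cx A) 3 j = _
    rw [r3]
    fin_cases j <;> simp [Jm]

end Pool.Agent.D0H2.BF
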