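import Mathlib
import Pool.Agent.D0H2.BF.DichCore

/-!
# Project BF (helper95), module DICH (helper2): from matrices to operators
-/

set_option autoImplicit false

namespace Pool.Agent.D0H2.BF

open Matrix

/-- the functional with the coefficients `r` -/
noncomputable def fun4 (r : Fin 4 → ℂ) : ℂ × ℂ →L[ℝ] ℂ :=
  LinearMap.toContinuousLinearMap
    { toFun := fun v => r ⬝ᵥ (fun k => ((e4 v k : ℝ) : ℂ))
      map_add' := fun v w => by
        simp only [dotProduct, map_add, Pi.add_apply, Complex.ofReal_add, mul_add,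
          Finset.sum_add_distrib]
      map_smul' := fun c v => by
        simp only [dotProduct, map_smul, Pi.smul_apply, smul_eq_mul, Complex.ofReal_mul,
          RingHom.id_apply, Complex.real_smul, Finset.mul_sum]
        exact Finset.sum_congr rfl fun i _ => by ring }

theorem fun4_apply (r : Fin 4 → ℂ) (v : ℂ × ℂ) :
    fun4 r v = r ⬝ᵥ (fun k => ((e4 v k : ℝ) : ℂ)) := rfl

theorem fun4_comp (M : ℂ × ℂ →L[ℝ] ℂ × ℂ) (r : Fin 4 → ℂ) (l : ℂ)
    (h : r ᵥ* cx (mat M) = l • r) (v : ℂ × ℂ) : fun4 r (M v) = l * fun4 r v := by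
  rw [fun4_apply, fun4_apply, ← smul_eq_mul, ← smul_dotProduct, ← h, ← dotProduct_mulVec]
  congr 1
  funext k
  rw [← mat_mulVec]
  simp [Matrix.mulVec, dotProduct]

theorem dich_op (M : ℂ × ℂ →L[ℝ] ℂ × ℂ)
    (hM : ∀ x y : ℂ × ℂ, ((starRingEnd ℂ) (M x).1 * (M y).2).re -
      ((starRingEnd ℂ) (M y).1 * (M x).2).re =
      ((starRingEnd ℂ) x.1 * y.2).re - ((starRingEnd ℂ) y.1 * x.2).re) (a b : ℝ)
    (ha : a = LinearMap.trace ℝ (ℂ × ℂ) (M : ℂ × ℂ →ₗ[ℝ] ℂ × ℂ))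
    (hb : b = (a ^ 2 - LinearMap.trace ℝ (ℂ × ℂ) (M.comp M : ℂ × ℂ →ₗ[ℝ] ℂ × ℂ)) / 2)
    (hnd : (a ^ 2 - 4 * b + 8) * ((b + 2) ^ 2 - 4 * a ^ 2) ≠ 0) :
    (∃ (φ : Fin 4 → (ℂ × ℂ →L[ℝ] ℂ)) (l : Fin 4 → ℂ), (∀ i v, φ i (M v) = l i * φ i v) ∧
      (∀ v, (∀ i, φ i v = 0) → v = 0) ∧ ∃ i, 1 < ‖l i‖ ∧ φ i ≠ 0) ∨
    (∃ α β : ℝ, Real.sin α ≠ 0 ∧ Real.sin β ≠ 0 ∧ Real.cos α ≠ Real.cos β ∧
      (∃ q s : ℂ × ℂ, q ≠ 0 ∧ M q = Real.cos α • q - Real.sin α • s ∧
        M s = Real.sin α • q + Real.cos α • s) ∧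
      (∃ q s : ℂ × ℂ, q ≠ 0 ∧ M q = Real.cos β • q - Real.sin β • s ∧
        M s = Real.sin β • q + Real.cos β • s)) := by
  have h := symp_mat M hM
  rw [mat_trace] at ha
  rw [mat_trace, mat_comp, ha] at hb
  rw [ha] at hnd
  rcases dich_mat (mat M) h b hb hnd with ⟨r, l, h1, h2, h3, i, hi⟩ | ⟨α, β, h1, h2, h3, h4, h5⟩
  · left
    refine ⟨fun i => fun4 (r i), l, fun i v => fun4_comp M (r i) (l i) (h1 i) v, ?_, i, hi, ?_⟩
    · intro v hv
      have h4 := h3 (fun k => ((e4 v k : ℝ) : ℂ)) (fun i => hv i)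
      have h5 : e4 v = 0 := by
        funext k
        have := congrFun h4 k
        simpa using this
      exact e4.map_eq_zero_iff.mp h5
    · intro h0
      apply h2 i
      funext k
      have h4 : fun4 (r i) (e4.symm (Pi.single k 1)) = 0 := by
        have h0' : fun4 (r i) = 0 := h0
        rw [h0']; rfl
      rw [fun4_apply, LinearEquiv.apply_symm_apply] at h4
      have h5 : (fun j => (((Pi.single k (1 : ℝ) : Fin 4 → ℝ) j : ℝ) : ℂ)) =
          Pi.single k (1 : ℂ) := by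
        funext j
        by_cases hj : j = k
        · subst hj; simp
        · simp [Pi.single_eq_of_ne hj]
      rw [h5, dotProduct_single, mul_one] at h4
      exact h4
  · right
    have conv : ∀ θ : ℝ, (∃ q s : Fin 4 → ℝ, q ≠ 0 ∧
        mat M *ᵥ q = Real.cos θ • q - Real.sin θ • s ∧
        mat M *ᵥ s = Real.sin θ • q + Real.cos θ • s) →
        ∃ q s : ℂ × ℂ, q ≠ 0 ∧ M q = Real.cos θ • q - Real.sin θ • s ∧
        M s = Real.sin θ • q + Real.cos θ • s := by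
      rintro θ ⟨q, s, hq, hq1, hs1⟩
      have hM' : ∀ x : Fin 4 → ℝ, M (e4.symm x) = e4.symm (mat M *ᵥ x) := by
        intro x
        apply e4.injective
        rw [LinearEquiv.apply_symm_apply, ← mat_mulVec, LinearEquiv.apply_symm_apply]
      refine ⟨e4.symm q, e4.symm s, ?_, ?_, ?_⟩
      · intro h0
        exact hq (e4.symm.map_eq_zero_iff.mp h0)
      · rw [hM', hq1, map_sub, map_smul, map_smul]
      · rw [hM', hs1, map_add, map_smul, map_smul]
    exact ⟨α, β, h1, h2, h3, conv α h4, conv β h5⟩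

end Pool.Agent.D0H2.BF
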